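import Pool.Agent.Helper72.GP.GoalsB

/-!
Project GP (MP_c9dfb5_co), packet REC.
-/

set_option autoImplicit false

namespace Pool.Agent.Helper85.GP

open Finset Polynomial Pool.Agent.Helper72.GP
open scoped Polynomial.Bivariate Classical

theorem dvd_gd (m : ℕ) (x y : Pt) : m ∣ gd x y ↔ (m : ℤ) ∣ x.1 - y.1 ∧ (m : ℤ) ∣ x.2 - y.2 := by
  unfold gd
  rw [Int.gcd_eq_natAbs_gcd_natAbs, Nat.dvd_gcd_iff, Int.natCast_dvd, Int.natCast_dvd]

theorem gd_symm {m : ℕ} {x y : Pt} (h : m ∣ gd x y) : m ∣ gd y x := by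
  rw [dvd_gd] at h ⊢
  refine ⟨?_, ?_⟩
  · have := (dvd_neg).2 h.1
    rwa [neg_sub] at this
  · have := (dvd_neg).2 h.2
    rwa [neg_sub] at this

theorem gd_trans {m : ℕ} {x y z : Pt} (h : m ∣ gd x y) (h' : m ∣ gd y z) : m ∣ gd x z := by
  rw [dvd_gd] at h h' ⊢
  refine ⟨?_, ?_⟩
  · have := dvd_add h.1 h'.1
    rwa [sub_add_sub_cancel] at this
  · have := dvd_add h.2 h'.2
    rwa [sub_add_sub_cancel] at this

theorem gd_pos {x y : Pt} (h : x ≠ y) : 0 < gd x y := by
  rw [Nat.pos_iff_ne_zero]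
  intro h0
  unfold gd at h0
  rw [Int.gcd_eq_zero_iff] at h0
  apply h
  apply Prod.ext
  · linarith [h0.1]
  · linarith [h0.2]

theorem gd_le {N : ℕ} {P : Finset Pt} (hB : Box N P) {x y : Pt} (hx : x ∈ P) (hy : y ∈ P)
    (h : x ≠ y) : gd x y ≤ N := by
  obtain ⟨a1, a2, a3, a4⟩ := hB x hx
  obtain ⟨b1, b2, b3, b4⟩ := hB y hy
  by_cases h1 : x.1 - y.1 = 0
  · have h2 : x.2 - y.2 ≠ 0 := by
      intro h2
      exact h (Prod.ext (by linarith) (by linarith))
    have h3 : gd x y ∣ (x.2 - y.2).natAbs := Int.gcd_dvd_natAbs_right _ _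
    have h4 := Nat.le_of_dvd (Int.natAbs_pos.2 h2) h3
    omega
  · have h3 : gd x y ∣ (x.1 - y.1).natAbs := Int.gcd_dvd_natAbs_left _ _
    have h4 := Nat.le_of_dvd (Int.natAbs_pos.2 h1) h3
    omega

theorem rec : REC := by
  intro P N h x Yr hB hh hx hY1 hhY
  set A := cls P h x with hA
  set Bp := (A ×ˢ A).filter (fun p : Pt × Pt => p.1 ≠ p.2 ∧ Yr ^ 2 ≤ (gd p.1 p.2 : ℝ)) with hBp
  have hF : Fh P (Yr ^ 2) h x = Bp.card := rfl
  have hYr0 : 0 < Yr := by linarith
  -- one pair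
  have hpair : ∀ p ∈ Bp, Real.log Yr ≤ ∑ q ∈ range (N + 1),
      Lam q * (if h * q ∣ gd p.1 p.2 then 1 else 0) := by
    intro p hp
    rw [hBp, Finset.mem_filter, Finset.mem_product] at hp
    obtain ⟨⟨hp1, hp2⟩, hne, hg⟩ := hp
    rw [hA, cls, Finset.mem_filter] at hp1 hp2
    have hdvd : h ∣ gd p.1 p.2 := gd_trans (gd_symm hp1.2) hp2.2
    have hgpos : 0 < gd p.1 p.2 := gd_pos hne
    obtain ⟨m, hm⟩ := hdvd
    have hm0 : 0 < m := by
      rcases Nat.eq_zero_or_pos m with h0 | h0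
      · rw [h0] at hm
        omega
      · exact h0
    have hlog : Real.log Yr ≤ Real.log m := by
      apply Real.log_le_log hYr0
      have h1 : Yr ^ 2 ≤ (h : ℝ) * m := by
        rw [hm] at hg
        exact_mod_cast hg
      have hh0 : (0 : ℝ) < h := by exact_mod_cast hh
      have h2 : Yr * Yr ≤ Yr * m := by
        calc Yr * Yr = Yr ^ 2 := by ring
          _ ≤ (h : ℝ) * m := h1
          _ ≤ Yr * m := by
            apply mul_le_mul_of_nonneg_right hhY.le (Nat.cast_nonneg _)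
      exact le_of_mul_le_mul_left h2 hYr0
    refine hlog.trans (le_of_eq ?_)
    rw [← ArithmeticFunction.vonMangoldt_sum]
    have h3 : ∀ q, (h * q ∣ gd p.1 p.2 ↔ q ∣ m) := by
      intro q
      rw [hm]
      exact Nat.mul_dvd_mul_iff_left hh
    have h4 : ∑ q ∈ range (N + 1), Lam q * (if h * q ∣ gd p.1 p.2 then (1 : ℝ) else 0) =
        ∑ q ∈ (range (N + 1)).filter (fun q => q ∣ m), Lam q := by
      rw [Finset.sum_filter]
      apply Finset.sum_congr rfl
      intro q _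
      by_cases h5 : q ∣ m
      · rw [if_pos ((h3 q).2 h5), if_pos h5, mul_one]
      · rw [if_neg (fun h6 => h5 ((h3 q).1 h6)), if_neg h5, mul_zero]
    rw [h4]
    apply Finset.sum_congr _ (fun q _ => rfl)
    ext q
    rw [Nat.mem_divisors, Finset.mem_filter, Finset.mem_range]
    constructor
    · rintro ⟨h5, -⟩
      refine ⟨?_, h5⟩
      have h6 := Nat.le_of_dvd hm0 h5
      have h7 := gd_le hB hp1.1 hp2.1 hne
      have h8 : m ≤ h * m := Nat.le_mul_of_pos_left m hh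
      omega
    · rintro ⟨-, h5⟩
      exact ⟨h5, hm0.ne'⟩
  -- for a fixed q
  have hq : ∀ q : ℕ, 1 ≤ q → ∑ p ∈ Bp, (if h * q ∣ gd p.1 p.2 then (1 : ℝ) else 0) =
      ∑ y ∈ A, (Fh P (Yr ^ 2) (h * q) y : ℝ) / (cls P (h * q) y).card := by
    intro q hq1
    -- the number of partners
    let nq : Pt → ℕ := fun y => ((cls P (h * q) y).filter
      (fun z => y ≠ z ∧ Yr ^ 2 ≤ (gd y z : ℝ))).card
    have hmem : ∀ y ∈ A, ∀ z, z ∈ cls P (h * q) y → z ∈ A := by
      intro y hy z hz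
      rw [hA, cls, Finset.mem_filter] at hy
      rw [cls, Finset.mem_filter] at hz
      rw [hA, cls, Finset.mem_filter]
      exact ⟨hz.1, gd_trans hy.2 (dvd_trans (dvd_mul_right h q) hz.2)⟩
    have hAP : ∀ y ∈ A, y ∈ P := by
      intro y hy
      rw [hA, cls, Finset.mem_filter] at hy
      exact hy.1
    have hself : ∀ y ∈ P, y ∈ cls P (h * q) y := by
      intro y hy
      rw [cls, Finset.mem_filter]
      refine ⟨hy, ?_⟩
      rw [dvd_gd]
      simp
    have hL : ∑ p ∈ Bp, (if h * q ∣ gd p.1 p.2 then (1 : ℝ) else 0) = ∑ y ∈ A, (nq y : ℝ) := by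
      have h1 : ∑ p ∈ Bp, (if h * q ∣ gd p.1 p.2 then (1 : ℝ) else 0) =
          ∑ p ∈ A ×ˢ A, (if (p.1 ≠ p.2 ∧ Yr ^ 2 ≤ (gd p.1 p.2 : ℝ)) ∧ h * q ∣ gd p.1 p.2 then
            (1 : ℝ) else 0) := by
        rw [hBp, Finset.sum_filter]
        apply Finset.sum_congr rfl
        intro p _
        by_cases c1 : p.1 ≠ p.2 ∧ Yr ^ 2 ≤ (gd p.1 p.2 : ℝ)
        · by_cases c2 : h * q ∣ gd p.1 p.2
          · rw [if_pos c1, if_pos c2, if_pos ⟨c1, c2⟩]
          · rw [if_pos c1, if_neg c2, if_neg (fun h => c2 h.2)]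
        · rw [if_neg c1, if_neg (fun h => c1 h.1)]
      rw [h1, Finset.sum_product]
      apply Finset.sum_congr rfl
      intro y hy
      change ∑ z ∈ A, (if (y ≠ z ∧ Yr ^ 2 ≤ (gd y z : ℝ)) ∧ h * q ∣ gd y z then (1 : ℝ) else 0) = _
      rw [← Finset.sum_filter, Finset.sum_const, nsmul_eq_mul, mul_one]
      congr 2
      ext z
      rw [Finset.mem_filter, Finset.mem_filter]
      constructor
      · rintro ⟨h2, h3, h4⟩
        refine ⟨?_, h3⟩
        rw [cls, Finset.mem_filter]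
        exact ⟨hAP z h2, h4⟩
      · rintro ⟨h2, h3⟩
        have h4 := h2
        rw [cls, Finset.mem_filter] at h4
        exact ⟨hmem y hy z h2, h3, h4.2⟩
    have hcls : ∀ y u : Pt, u ∈ cls P (h * q) y → cls P (h * q) u = cls P (h * q) y := by
      intro y u hu
      rw [cls, Finset.mem_filter] at hu
      unfold cls
      ext z
      rw [Finset.mem_filter, Finset.mem_filter]
      constructor
      · rintro ⟨h2, h3⟩
        exact ⟨h2, gd_trans hu.2 h3⟩
      · rintro ⟨h2, h3⟩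
        exact ⟨h2, gd_trans (gd_symm hu.2) h3⟩
    have hFh : ∀ y, (Fh P (Yr ^ 2) (h * q) y : ℝ) = ∑ u ∈ cls P (h * q) y, (nq u : ℝ) := by
      intro y
      unfold Fh
      rw [Finset.card_filter]
      push_cast
      rw [Finset.sum_product]
      apply Finset.sum_congr rfl
      intro u hu
      change ∑ z ∈ cls P (h * q) y, (if (u ≠ z ∧ Yr ^ 2 ≤ (gd u z : ℝ)) then (1 : ℝ) else 0) =
        (((cls P (h * q) u).filter (fun z => u ≠ z ∧ Yr ^ 2 ≤ (gd u z : ℝ))).card : ℝ)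
      rw [← Finset.sum_filter, Finset.sum_const, nsmul_eq_mul, mul_one, hcls y u hu]
    rw [hL]
    have h5 : ∀ y ∈ A, (Fh P (Yr ^ 2) (h * q) y : ℝ) / (cls P (h * q) y).card =
        ∑ u ∈ A, (if u ∈ cls P (h * q) y then (nq u : ℝ) / (cls P (h * q) u).card else 0) := by
      intro y hy
      rw [hFh, Finset.sum_div, ← Finset.sum_filter]
      have h6 : A.filter (fun u => u ∈ cls P (h * q) y) = cls P (h * q) y := by
        ext u
        rw [Finset.mem_filter]
        exact ⟨fun h => h.2, fun h => ⟨hmem y hy u h, h⟩⟩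
      rw [h6]
      apply Finset.sum_congr rfl
      intro u hu
      rw [hcls y u hu]
    rw [Finset.sum_congr rfl h5, Finset.sum_comm]
    apply Finset.sum_congr rfl
    intro u hu
    rw [← Finset.sum_filter, Finset.sum_const, nsmul_eq_mul]
    have h7 : A.filter (fun y => u ∈ cls P (h * q) y) = cls P (h * q) u := by
      ext y
      rw [Finset.mem_filter]
      constructor
      · rintro ⟨h8, h9⟩
        rw [cls, Finset.mem_filter] at h9 ⊢
        exact ⟨hAP y h8, gd_symm h9.2⟩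
      · intro h8
        refine ⟨hmem u hu y h8, ?_⟩
        rw [cls, Finset.mem_filter] at h8 ⊢
        exact ⟨hAP u hu, gd_symm h8.2⟩
    rw [h7]
    have h8 : ((cls P (h * q) u).card : ℝ) ≠ 0 := by
      have := Finset.card_pos.2 ⟨u, hself u (hAP u hu)⟩
      exact_mod_cast this.ne'
    field_simp
  -- assembly
  rw [hF]
  have hLam0 : Lam 0 = 0 := by
    unfold Lam
    simp
  calc (Bp.card : ℝ) * Real.log Yr = ∑ p ∈ Bp, Real.log Yr := by
        rw [Finset.sum_const, nsmul_eq_mul]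
    _ ≤ ∑ p ∈ Bp, ∑ q ∈ range (N + 1), Lam q * (if h * q ∣ gd p.1 p.2 then 1 else 0) :=
        Finset.sum_le_sum hpair
    _ = ∑ q ∈ range (N + 1), Lam q * ∑ p ∈ Bp, (if h * q ∣ gd p.1 p.2 then (1 : ℝ) else 0) := by
        rw [Finset.sum_comm]
        apply Finset.sum_congr rfl
        intro q _
        rw [Finset.mul_sum]
    _ = ∑ q ∈ range (N + 1), ∑ y ∈ A, Lam q *
          ((Fh P (Yr ^ 2) (h * q) y : ℝ) / (cls P (h * q) y).card) := by
        apply Finset.sum_congr rfl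
        intro q _
        rcases Nat.eq_zero_or_pos q with h0 | h0
        · subst h0
          rw [hLam0]
          simp
        · rw [hq q h0, Finset.mul_sum]
    _ = _ := Finset.sum_comm

end Pool.Agent.Helper85.GP
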