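import Pool.Agent.Helper89.GP.GoalsA
import Pool.Agent.Helper89.GP.Basic

/-!
# GP-PRD: the product inequality for the generating function
-/

namespace Pool.Agent.Helper85.GP

open Pool.Agent.Helper89.GP Finset

theorem bq_nonneg {n : ℕ} (R : Fin n → Fin n → Prop) (u v : Fin n) (k : ℕ) :
    0 ≤ bq R u v k := by
  unfold bq
  exact Pr_nonneg _

theorem Ff_nonneg {n : ℕ} (R : Fin n → Fin n → Prop) (u v : Fin n) {t : ℝ} (ht : 0 ≤ t) :
    0 ≤ Ff R u v t := by
  unfold Ff
  apply Finset.sum_nonneg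
  intro k _
  have := bq_nonneg R u v k
  positivity

theorem Gd_of_nonneg {n : ℕ} (R : Fin n → Fin n → Prop) (u v : Fin n) {t : ℝ} (ht : 0 ≤ t) :
    Gd R u v t = Real.exp (-t) * Ff R u v t := by
  unfold Gd
  rw [if_pos ht]

/-- PRD from LCG. -/
theorem prd (h : LcgStmt) : PrdStmt := by
  intro n R u v r s hne huv hr hs
  rcases hr.eq_or_lt with rfl | hr
  · rw [zero_add]
  rcases hs.eq_or_lt with rfl | hs
  · rw [add_zero, mul_comm]
  have hw : 0 < r + s := by linarith
  obtain ⟨l, hl⟩ : ∃ l, l = r / (r + s) := ⟨_, rfl⟩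
  have hl0 : 0 < l := by rw [hl]; exact div_pos hr hw
  have hl1 : l < 1 := by rw [hl, div_lt_one hw]; linarith
  have hlw : l * (r + s) = r := by rw [hl]; exact div_mul_cancel₀ _ hw.ne'
  have e1 : (1 - l) * 0 + l * (r + s) = r := by rw [hlw]; ring
  have e2 : (1 - (1 - l)) * 0 + (1 - l) * (r + s) = s := by
    have : (1 - l) * (r + s) = (r + s) - l * (r + s) := by ring
    rw [this, hlw]; ring
  have h1 := h n R u v 0 (r + s) l hne huv hl0 hl1
  have h2 := h n R u v 0 (r + s) (1 - l) hne huv (by linarith) (by linarith)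
  rw [e1] at h1
  rw [e2] at h2
  have hG0 : 0 ≤ Gd R u v 0 := by
    rw [Gd_of_nonneg R u v le_rfl]
    exact mul_nonneg (Real.exp_nonneg _) (Ff_nonneg R u v le_rfl)
  have hGw : 0 ≤ Gd R u v (r + s) := by
    rw [Gd_of_nonneg R u v hw.le]
    exact mul_nonneg (Real.exp_nonneg _) (Ff_nonneg R u v hw.le)
  have h3 : Gd R u v 0 * Gd R u v (r + s) ≤ Gd R u v r * Gd R u v s := by
    have h4 := mul_le_mul h1 h2 (mul_nonneg (Real.rpow_nonneg hG0 _) (Real.rpow_nonneg hGw _))
      (by rw [Gd_of_nonneg R u v hr.le]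
          exact mul_nonneg (Real.exp_nonneg _) (Ff_nonneg R u v hr.le))
    have h5 : Gd R u v 0 ^ (1 - l) * Gd R u v (r + s) ^ l *
        (Gd R u v 0 ^ (1 - (1 - l)) * Gd R u v (r + s) ^ (1 - l)) =
        Gd R u v 0 * Gd R u v (r + s) := by
      have a1 : Gd R u v 0 ^ (1 - l) * Gd R u v 0 ^ l = Gd R u v 0 := by
        rw [← Real.rpow_add_of_nonneg hG0 (by linarith) hl0.le]
        rw [sub_add_cancel, Real.rpow_one]
      have a2 : Gd R u v (r + s) ^ l * Gd R u v (r + s) ^ (1 - l) = Gd R u v (r + s) := by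
        rw [← Real.rpow_add_of_nonneg hGw hl0.le (by linarith)]
        rw [add_sub_cancel, Real.rpow_one]
      rw [sub_sub_cancel]
      calc Gd R u v 0 ^ (1 - l) * Gd R u v (r + s) ^ l *
          (Gd R u v 0 ^ l * Gd R u v (r + s) ^ (1 - l))
          = (Gd R u v 0 ^ (1 - l) * Gd R u v 0 ^ l) *
            (Gd R u v (r + s) ^ l * Gd R u v (r + s) ^ (1 - l)) := by ring
        _ = _ := by rw [a1, a2]
    rwa [h5] at h4
  rw [Gd_of_nonneg R u v le_rfl, Gd_of_nonneg R u v hw.le, Gd_of_nonneg R u v hr.le,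
    Gd_of_nonneg R u v hs.le] at h3
  have hE : Real.exp (-(r + s)) = Real.exp (-r) * Real.exp (-s) := by
    rw [← Real.exp_add]; congr 1; ring
  have hE0 : Real.exp (-(0 : ℝ)) = 1 := by simp
  rw [hE, hE0] at h3
  have hpos : 0 < Real.exp (-r) * Real.exp (-s) := mul_pos (Real.exp_pos _) (Real.exp_pos _)
  have h6 : (Real.exp (-r) * Real.exp (-s)) * (Ff R u v 0 * Ff R u v (r + s)) ≤
      (Real.exp (-r) * Real.exp (-s)) * (Ff R u v r * Ff R u v s) := by
    nlinarith [h3]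
  exact le_of_mul_le_mul_left h6 hpos

end Pool.Agent.Helper85.GP
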